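import Pool.Agent.R889.PZ.GAbs

/-!
# Almost every substitution is absorbing in non-commuting compositions

Let `M i` be finitely many nonnegative unimodular irreducible Pisot matrices of the same size (none
of them are assumed to commute) with right eigenvectors `u i` of sum one. `SubSet (u i) (M i ^ n) B`
is the finite set of the substitutions with incidence matrix `M i ^ n` and discrepancy at most `B`.
`TubeBlock M u B T K` is the set of the compositions `ρ ∘ τ'` of an arbitrary substitution `ρ` with
determinant `± 1` and images of length at most `T` and a substitution `τ'` from one of the sets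
`SubSet (u j) (M j ^ k) B` with `k ≥ K`.

For `B` large and all `T` there are `K` and `c > 0` such that for all `i` and `n ≥ K` all the
substitutions `τ` in `SubSet (u i) (M i ^ n) B`, with the exception of a proportion of at most
`exp (-c * |M i ^ n|)`, have the following property: for all `ρ` of determinant `± 1` with images of
length at most `T`, every composition of `ρ ∘ τ` on both sides with arbitrary numbers of tube blocks
is unimodular, irreducible and Pisot, satisfies the geometric coincidence condition, and is
semi-conjugate to a toral translation.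

In particular, for almost all `τ` all the substitutions `ρ ∘ τ` simultaneously satisfy the
conclusion of the Pisot conjecture.

Built on the library `Pool/Agent/H812R2/PI` (helper812 and others; `generic_UC`, `JFin_semi`),
`Pool/Agent/TH100/Pisot`, `Pool/Agent/Y316/Pisot` and `Pool/Agent/H906R3/CY/PF`.
-/

set_option autoImplicit false

namespace Pool.Agent.Results.MP_e732b0_an.GenericAbsorption

open Pool.Agent.H812R2.PI Pool.Agent.R889.PZ
open scoped BigOperators

theorem result {m : ℕ} {ι : Type} [Fintype ι] (M : ι → Matrix (Fin (m+1)) (Fin (m+1)) ℤ)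
    (hnn : ∀ i a b, 0 ≤ M i a b) (hM : ∀ i, PisotMat (M i)) (lam : ι → ℝ) (hlam : ∀ i, 1 < lam i)
    (u : ι → Fin (m+1) → ℝ) (hu : ∀ i a, ∑ b, (M i a b : ℝ) * u i b = lam i * u i a)
    (husum : ∀ i, ∑ a, u i a = 1) :
    ∃ B₀ : ℝ, ∀ B ≥ B₀, ∀ T : ℕ, ∃ (K : ℕ) (c : ℝ), 0 < c ∧ ∀ i, ∀ n ≥ K,
      (SubSet (u i) (M i ^ n) B).Finite ∧ (SubSet (u i) (M i ^ n) B).Nonempty ∧
      ({τ | τ ∈ SubSet (u i) (M i ^ n) B ∧ ¬ ∀ ρ : Fin (m+1) → List (Fin (m+1)),
          ((inc ρ).det = 1 ∨ (inc ρ).det = -1) → (∀ a, (ρ a).length ≤ T) →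
          ∀ l₁ l₂ : List (Fin (m+1) → List (Fin (m+1))),
          (∀ τ' ∈ l₁ ++ l₂, TubeBlock M u B T K τ') →
            PisotMat (inc (compList (l₁ ++ [comp ρ τ] ++ l₂))) ∧
            Coinc (compList (l₁ ++ [comp ρ τ] ++ l₂)) ∧
            SemiConjToral (compList (l₁ ++ [comp ρ τ] ++ l₂))}.ncard : ℝ) ≤
        Real.exp (-(c * ∑ a, ∑ b, ((M i ^ n) a b : ℝ))) *
          ((SubSet (u i) (M i ^ n) B).ncard : ℝ) :=
  main_generic M hnn hM lam hlam u hu husum

end Pool.Agent.Results.MP_e732b0_an.GenericAbsorption
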