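import Pool.Agent.R889.PZ.NExist

/-!
# Non-commuting absorption for the Pisot substitution conjecture

A substitution `σ` satisfies `Coinc σ` (the geometric coincidence condition) if any two edges which
overlap as intervals, with lengths given by the positive left eigenvector of its incidence matrix,
are sent by some iterate of `σ` to two paths with a common edge.

Let `σ` be a unimodular irreducible Pisot substitution which satisfies this condition, and let
`M i` be finitely many nonnegative unimodular irreducible Pisot matrices with right eigenvectors
`u i` of sum one. None of these matrices are assumed to commute. For all `T` and `B` there is `K`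
with the following property. Consider the compositions of blocks `ρ ∘ τ`, where `ρ` is an arbitrary
substitution with determinant `± 1` and images of length at most `T`, and `τ` is either `σ ^ k` or
an arbitrary substitution with incidence matrix `M i ^ k` and discrepancy at most `B`, `k ≥ K`. All
the compositions, of any length, in which some block is of the form `ρ ∘ σ ^ k` are unimodular
irreducible Pisot substitutions, satisfy the geometric coincidence condition and are semi-conjugate
to toral translations. Such substitutions `σ` exist with incidence matrix a power of any given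
nonnegative unimodular irreducible Pisot matrix.

In particular, for every substitution `ρ` with determinant `± 1` the substitution `ρ ∘ σ ^ k`
satisfies the conclusion of the Pisot conjecture for all sufficiently large `k`.

Built on the library `Pool/Agent/H812R2/PI` (helper812 and others; `JFin_semi`, `generic_UC`),
`Pool/Agent/TH100/Pisot`, `Pool/Agent/Y316/Pisot` and the Perron theorem of
`Pool/Agent/H906R3/CY/PF`.
-/

set_option autoImplicit false

namespace Pool.Agent.Results.MP_e732b0_an.NonCommutingAbsorption

open Pool.Agent.H812R2.PI Pool.Agent.R889.PZ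
open scoped BigOperators

theorem result {m : ℕ} {ι : Type} [Fintype ι] (M : ι → Matrix (Fin (m+1)) (Fin (m+1)) ℤ)
    (hnn : ∀ i a b, 0 ≤ M i a b) (hM : ∀ i, PisotMat (M i)) (lam : ι → ℝ) (hlam : ∀ i, 1 < lam i)
    (u : ι → Fin (m+1) → ℝ) (hu : ∀ i a, ∑ b, (M i a b : ℝ) * u i b = lam i * u i a)
    (husum : ∀ i, ∑ a, u i a = 1) :
    (∀ i, ∃ (n : ℕ) (σ : Fin (m+1) → List (Fin (m+1))), 1 ≤ n ∧ inc σ = M i ^ n ∧
      PisotMat (inc σ) ∧ Coinc σ) ∧
    ∀ σ : Fin (m+1) → List (Fin (m+1)), PisotMat (inc σ) → Coinc σ →
      ∀ (T : ℕ) (B : ℝ), ∃ K : ℕ, ∀ l : List (Fin (m+1) → List (Fin (m+1))),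
        (∀ τ ∈ l, Block σ M u B T K τ) →
        (∃ (ρ : Fin (m+1) → List (Fin (m+1))) (k : ℕ), K ≤ k ∧
          ((inc ρ).det = 1 ∨ (inc ρ).det = -1) ∧ comp ρ (iter σ k) ∈ l) →
        PisotMat (inc (compList l)) ∧ Coinc (compList l) ∧ SemiConjToral (compList l) :=
  ⟨fun i => exists_coinc (M i) (hnn i) (hM i), fun _ hσ hg T B =>
    main_blocks hσ hg M hnn hM lam hlam u hu husum T B⟩

end Pool.Agent.Results.MP_e732b0_an.NonCommutingAbsorption
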