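import Pool.Agent.R889.PZ.UEx

/-!
# A zero-one law for uniformly Pisot families of substitutions

Let `F` be a finite family of substitutions with determinants `± 1` on the same alphabet of at least
two letters, with arbitrary non-commuting incidence matrices, which is uniformly Pisot: the
incidence matrices of all long compositions are positive, and they contract exponentially, up to a
constant, all vectors whose images have entries of both signs. Then either no composition of
members of the family satisfies the geometric coincidence condition, or

* some word `W` has the property that all compositions which contain it are unimodular irreducible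
  Pisot substitutions which satisfy the condition and are semi-conjugate to a toral translation,
* the probability that a random composition of `k` members does not have these properties is
  exponentially small in `k`, for all positive probability weights, and
* for every composition `w` which satisfies the condition all compositions which contain a
  sufficiently high power of `w` have these properties.

Families whose incidence matrices are powers of one Pisot matrix, and families of blocks `ρ ∘ τ`
with arbitrary `ρ` of determinant `± 1` and `τ` with incidence matrix a high power of a Pisot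
matrix are uniformly Pisot (`unif_of_powers`, `unif_of_blocks` in `Pool/Agent/R889/PZ/UEx`).

Built on the library `Pool/Agent/H812R2/PI` (helper812 and others), `Pool/Agent/TH100/Pisot`,
`Pool/Agent/Y316/Pisot` and `Pool/Agent/H906R3/CY/PF`.
-/

set_option autoImplicit false

namespace Pool.Agent.Results.MP_e732b0_an.UniformZeroOneLaw

open Pool.Agent.H812R2.PI Pool.Agent.R889.PZ
open scoped BigOperators

/-- unimodular irreducible Pisot, geometric coincidences, and the conclusion of the conjecture -/
def Fine {m : ℕ} (S : Fin (m+1) → List (Fin (m+1))) : Prop :=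
  PisotMat (inc S) ∧ Coinc S ∧ SemiConjToral S

open Classical in
theorem result {m : ℕ} (hm : 1 ≤ m) {ι : Type} [Fintype ι] (F : ι → Fin (m+1) → List (Fin (m+1)))
    (hdet : ∀ i, (inc (F i)).det = 1 ∨ (inc (F i)).det = -1) (hU : UnifPisot F) :
    (∀ w : List ι, w ≠ [] → ¬ Coinc (compList (w.map F))) ∨
    ((∃ W : List ι, W ≠ [] ∧ ∀ l₁ l₂ : List ι, Fine (compList ((l₁ ++ W ++ l₂).map F))) ∧
      (∀ p : ι → ℝ, (∀ i, 0 < p i) → ∑ i, p i = 1 → ∃ C c : ℝ, 0 < c ∧ ∀ k : ℕ,
        ∑ f : Fin k → ι, (if Fine (compList (List.ofFn fun j => F (f j))) then 0
          else ∏ j, p (f j)) ≤ C * Real.exp (-(c * k))) ∧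
      ∀ w : List ι, w ≠ [] → Coinc (compList (w.map F)) → ∃ K : ℕ, ∀ k ≥ K, ∀ l₁ l₂ : List ι,
        Fine (compList ((l₁ ++ (List.replicate k w).flatten ++ l₂).map F))) := by
  by_cases h : ∃ w : List ι, w ≠ [] ∧ Coinc (compList (w.map F))
  · right
    obtain ⟨w, hw, hg⟩ := h
    obtain ⟨K, hK⟩ := word_absorb hm F hdet hU w hw hg
    obtain ⟨W, hW⟩ : ∃ W : List ι, W = (List.replicate (K + 1) w).flatten := ⟨_, rfl⟩
    have hW0 : W ≠ [] := by
      rw [hW, List.replicate_succ, List.flatten_cons]
      intro h
      exact hw (List.append_eq_nil_iff.1 h).1
    have hWf : ∀ l₁ l₂ : List ι, Fine (compList ((l₁ ++ W ++ l₂).map F)) := by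
      intro l₁ l₂
      rw [hW]
      exact hK (K + 1) (Nat.le_succ K) l₁ l₂
    refine ⟨⟨W, hW0, hWf⟩, fun p hp hps => ?_, fun w hw hg => word_absorb hm F hdet hU w hw hg⟩
    obtain ⟨C, c, hc, h⟩ := wt_exp p hp hps W hW0
    refine ⟨C, c, hc, fun k => le_trans ?_ (h k)⟩
    unfold wt
    refine Finset.sum_le_sum fun f _ => ?_
    by_cases hf : Has W f
    · have hgood : Fine (compList (List.ofFn fun j => F (f j))) := by
        obtain ⟨l₁, l₂, hl⟩ := hf
        have h3 : (List.ofFn fun j => F (f j)) = (l₁ ++ W ++ l₂).map F := by
          rw [← hl, List.map_ofFn]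
          rfl
        rw [h3]
        exact hWf l₁ l₂
      rw [if_pos hf, if_pos hgood]
    · rw [if_neg hf]
      have h0 : 0 ≤ ∏ j, p (f j) := Finset.prod_nonneg fun j _ => (hp _).le
      split_ifs
      · exact h0
      · exact le_rfl
  · left
    intro w hw hg
    exact h ⟨w, hw, hg⟩

end Pool.Agent.Results.MP_e732b0_an.UniformZeroOneLaw
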