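import Pool.Agent.R889.PZ.Law

/-!
# A zero-one law for the Pisot substitution conjecture

Let `M` be a nonnegative unimodular irreducible Pisot matrix with right eigenvector `u` of sum one
and positive left eigenvector `ell`. `GCC ell σ` is the geometric coincidence condition of the
substitution `σ`: whenever two edges of the lattice path overlap (as intervals of lengths given by
`ell`), some iterate of `σ` sends them to two paths with a common edge.

Zero-one law: for a finite family of substitutions whose incidence matrices are powers of `M`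
either no composition satisfies the condition, or the following holds. There is a word such that all
the compositions which contain it satisfy the condition and the conclusion of the Pisot conjecture;
the probability that a random composition of `k` factors does not is exponentially small in `k`; and
every composition which satisfies the condition is absorbing: its high powers, composed on both
sides with arbitrary substitutions of bounded discrepancy whose incidence matrices are powers of
`M`, satisfy the condition and the conclusion of the Pisot conjecture.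

Built on the library `Pool/Agent/H812R2/PI` (helper812 and others), `Pool/Agent/TH100/Pisot` and
`Pool/Agent/Y316/Pisot`.
-/

set_option autoImplicit false

namespace Pool.Agent.Results.MP_e732b0_an.ZeroOneLaw

open Pool.Agent.H812R2.PI Pool.Agent.R889.PZ
open scoped BigOperators

open Classical in
theorem result {m : ℕ} (M : Matrix (Fin (m+1)) (Fin (m+1)) ℤ)
    (hnn : ∀ i j, 0 ≤ M i j) (hM : PisotMat M) (lam : ℝ) (hlam : 1 < lam)
    (u : Fin (m+1) → ℝ) (hu : ∀ i, ∑ j, (M i j : ℝ) * u j = lam * u i) (husum : ∑ i, u i = 1)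
    (ell : Fin (m+1) → ℝ) (lam' : ℝ) (hellpos : ∀ i, 0 < ell i)
    (hell : ∀ j, ∑ i, ell i * (M i j : ℝ) = lam' * ell j)
    (ι : Type) [Fintype ι] (F : ι → Fin (m+1) → List (Fin (m+1))) (e : ι → ℕ)
    (he : ∀ i, 1 ≤ e i ∧ inc (F i) = M ^ e i) :
    (∀ w : List ι, w ≠ [] → ¬ GCC ell (compList (w.map F))) ∨
    ((∃ W : List ι, W ≠ [] ∧
        ∀ l₁ l₂ : List ι, Good ell (compList ((l₁ ++ W ++ l₂).map F))) ∧
      (∀ p : ι → ℝ, (∀ i, 0 < p i) → ∑ i, p i = 1 → ∃ C c : ℝ, 0 < c ∧ ∀ k : ℕ,
        ∑ f : Fin k → ι, (if Good ell (compList (List.ofFn fun j => F (f j))) then 0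
          else ∏ j, p (f j)) ≤ C * Real.exp (-(c * k))) ∧
      ∀ w : List ι, w ≠ [] → GCC ell (compList (w.map F)) →
        Good ell (compList (w.map F)) ∧
        ∀ B : ℝ, ∃ K : ℕ, ∀ k ≥ K, ∀ l₁ l₂ : List (Fin (m+1) → List (Fin (m+1))),
          (∀ ρ ∈ l₁ ++ l₂, ∃ i, 1 ≤ i ∧ ρ ∈ SubSet u (M ^ i) B) →
            Good ell (compList (l₁ ++ List.replicate k (compList (w.map F)) ++ l₂))) := by
  obtain ⟨P, rfl, rfl⟩ := exists_PD M hnn hM lam hlam u hu husum
  obtain ⟨κ, hκ, hk⟩ := ell_unique P ell lam' hellpos hell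
  by_cases h : ∃ w : List ι, w ≠ [] ∧ GCC ell (compList (w.map F))
  · right
    obtain ⟨w, hw, hg⟩ := h
    have hl := law M hnn hM P F e he w hw ((gcc_smul hκ hk _).1 hg)
    refine ⟨?_, fun p hp hps => ?_, fun w hw hg => ?_⟩
    · obtain ⟨⟨K, hK⟩, -⟩ := hl
      refine ⟨(List.replicate (K + 1) w).flatten, ?_, fun l₁ l₂ =>
        (good_smul hκ hk _).2 (hK (K + 1) (Nat.le_succ K) l₁ l₂)⟩
      rw [List.replicate_succ, List.flatten_cons]
      intro h
      exact hw (List.append_eq_nil_iff.1 h).1
    · obtain ⟨C, c, hc, h⟩ := hl.2 p hp hps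
      refine ⟨C, c, hc, fun k => ?_⟩
      simp only [good_smul hκ hk]
      exact h k
    · have hg' : GCC P.ell (compList (w.map F)) := (gcc_smul hκ hk _).1 hg
      obtain ⟨s, hs, hσ⟩ := inc_family M hnn P F e he w hw
      refine ⟨(good_smul hκ hk _).2 (good_self M hnn hM P _ s hs hσ hg'), fun B => ?_⟩
      obtain ⟨K, hK⟩ := absorb M hnn hM P _ s hs hσ hg' (P.c * |B|)
      refine ⟨K, fun k hkK l₁ l₂ hl => (good_smul hκ hk _).2 (hK k hkK l₁ l₂ fun ρ hρ => ?_)⟩
      obtain ⟨i, hi, hρi⟩ := hl ρ hρ
      refine ⟨⟨i, hi, hρi.1⟩, fun a j => ?_⟩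
      exact GFin_dis_N P |B| (abs_nonneg B) _ ((hρi.2 a j).trans (sq_abs B).ge)
  · left
    intro w hw hg
    exact h ⟨w, hw, hg⟩

end Pool.Agent.Results.MP_e732b0_an.ZeroOneLaw
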